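import Pool.Agent.H43.StairMain

set_option autoImplicit false
open Filter Pool.Agent.H43.Stair

namespace Pool.Agent.Results.MP_1da119_pr.Diverges

/-- The adaptive Gibbs walk on stairs of Latuszynski, Roberts and Rosenthal (forward proposal
with probability `1/2 + 4/a_t` at both kinds of states) diverges almost surely for a suitable
admissible sequence `a`. -/
theorem result : ∃ (a : ℕ → ℝ) (p : ℕ → ℕ × ℕ → unitInterval), Monotone a ∧ (∀ t, 8 ≤ a t) ∧
    Tendsto a atTop atTop ∧ (∀ t x, (p t x : ℝ) = 1 / 2 + 4 / a t) ∧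
    stairLaw p {z | Tendsto (fun t => (z t).2.2) atTop atTop} = 1 :=
  diverges

end Pool.Agent.Results.MP_1da119_pr.Diverges
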