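import Pool.Agent.H43.StairMain

set_option autoImplicit false
open Filter Pool.Agent.H43.Stair

namespace Pool.Agent.Results.MP_1da119_pr.LiteralZero

/-- With the proposal probabilities exactly as written in the problem file (forward with
probability `1/2 + 4/a_t` at `(j,j)` and `1/2 - 4/a_t` at `(j+1,j)`), the walk diverges with
probability zero, whatever the sequence `a`. -/
theorem result (a : ℕ → ℝ) (p : ℕ → ℕ × ℕ → unitInterval)
    (hp : ∀ t, 1 ≤ t → ∀ x : ℕ × ℕ,
      (p t x : ℝ) = if x.1 = x.2 then 1 / 2 + 4 / a t else 1 / 2 - 4 / a t) :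
    stairLaw p {z | Tendsto (fun t => (z t).2.2) atTop atTop} = 0 :=
  literal_zero p (fun t => 1 / 2 + 4 / a t) fun t ht x => by
    rw [hp t ht x]
    split_ifs
    · rfl
    · ring

end Pool.Agent.Results.MP_1da119_pr.LiteralZero
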